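import Mathlib

open MeasureTheory Set Metric

namespace Pool.Agent.Q278.CD

/-- one-dimensional local-to-global convexity inequality -/
lemma one_dim {g : ℝ → ℝ} (hg : ContinuousOn g (Icc 0 1))
    (h : ∀ t ∈ Ioo (0:ℝ) 1, ∃ δ > 0, ∀ s, 0 < s → s < δ → g t ≤ (g (t - s) + g (t + s)) / 2)
    {θ : ℝ} (hθ : θ ∈ Icc (0:ℝ) 1) : g θ ≤ (1 - θ) * g 0 + θ * g 1 := by
  set k : ℝ → ℝ := fun t => g t - ((1 - t) * g 0 + t * g 1) with hk
  have hkc : ContinuousOn k (Icc 0 1) := by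
    apply ContinuousOn.sub hg
    fun_prop
  obtain ⟨m, hm, hmax⟩ := isCompact_Icc.exists_isMaxOn (nonempty_Icc.2 zero_le_one) hkc
  have hmax' : ∀ x ∈ Icc (0:ℝ) 1, k x ≤ k m := fun x hx => hmax hx
  have hScl : IsClosed (Icc (0:ℝ) 1 ∩ k ⁻¹' {k m}) :=
    hkc.preimage_isClosed_of_isClosed isClosed_Icc isClosed_singleton
  have hS : IsCompact (Icc (0:ℝ) 1 ∩ k ⁻¹' {k m}) :=
    isCompact_Icc.of_isClosed_subset hScl inter_subset_left
  obtain ⟨t0, ⟨ht0, ht0'⟩, hleast⟩ := hS.exists_isLeast ⟨m, hm, rfl⟩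
  have ht0k : k t0 = k m := ht0'
  have hk0 : k 0 = 0 := by simp [hk]
  have hk1 : k 1 = 0 := by simp [hk]
  have hfin : k θ ≤ 0 := by
    by_contra hcon
    push Not at hcon
    have hpos : 0 < k m := lt_of_lt_of_le hcon (hmax' θ hθ)
    have ht0ne0 : t0 ≠ 0 := by
      rintro rfl
      rw [hk0] at ht0k; linarith
    have ht0ne1 : t0 ≠ 1 := by
      rintro rfl
      rw [hk1] at ht0k; linarith
    have ht0pos : 0 < t0 := lt_of_le_of_ne ht0.1 (Ne.symm ht0ne0)
    have ht0lt : t0 < 1 := lt_of_le_of_ne ht0.2 ht0ne1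
    obtain ⟨δ, hδ, hδ'⟩ := h t0 ⟨ht0pos, ht0lt⟩
    set s := min (δ / 2) (min (t0 / 2) ((1 - t0) / 2)) with hs
    have hspos : 0 < s := by
      refine lt_min (by linarith) (lt_min (by linarith) (by linarith))
    have hs1 : s ≤ δ / 2 := min_le_left _ _
    have hs2 : s ≤ t0 / 2 := le_trans (min_le_right _ _) (min_le_left _ _)
    have hs3 : s ≤ (1 - t0) / 2 := le_trans (min_le_right _ _) (min_le_right _ _)
    have h1 := hδ' s hspos (by linarith)
    have hkk : k t0 ≤ (k (t0 - s) + k (t0 + s)) / 2 := by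
      simp only [hk]; linarith
    have hm1 : t0 - s ∈ Icc (0:ℝ) 1 := ⟨by linarith, by linarith⟩
    have hm2 : t0 + s ∈ Icc (0:ℝ) 1 := ⟨by linarith, by linarith⟩
    have h2 := hmax' _ hm1
    have h3 := hmax' _ hm2
    have h4 : k (t0 - s) = k m := by linarith
    have h5 := hleast ⟨hm1, h4⟩
    linarith
  simp only [hk] at hfin
  linarith

/-- local convexity -/
def LocConv {E : Type*} [NormedAddCommGroup E] [NormedSpace ℝ E] (f : E → ℝ) (U : Set E) : Prop :=
  ∀ x ∈ U, ∃ V : Set E, IsOpen V ∧ Convex ℝ V ∧ x ∈ V ∧ V ⊆ U ∧ ConvexOn ℝ V f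

/-- second difference -/
def D {E : Type*} [AddCommGroup E] (F : E → ℝ) (w p : E) : ℝ := F (p + w) + F (p - w) - 2 * F p

lemma seg_conv {E : Type*} [NormedAddCommGroup E] [NormedSpace ℝ E] {F : E → ℝ}
    (hF : Continuous F) {U : Set E} (hl : LocConv F U) {p w : E}
    (hseg : ∀ t : ℝ, |t| ≤ 1 → p + t • w ∈ U) : 0 ≤ D F w p := by
  have key := one_dim (g := fun t => F (p + (2 * t - 1) • w)) (by fun_prop) (by
    intro t ht
    have hx : p + (2 * t - 1) • w ∈ U := hseg _ (by rw [abs_le]; constructor <;> linarith [ht.1, ht.2])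
    obtain ⟨V, hVo, -, hxV, -, hconv⟩ := hl _ hx
    have hcont : Continuous fun s : ℝ => p + (2 * (t + s) - 1) • w := by fun_prop
    have hnh : (fun s : ℝ => p + (2 * (t + s) - 1) • w) ⁻¹' V ∈ nhds (0:ℝ) := by
      apply hcont.continuousAt.preimage_mem_nhds
      simpa using hVo.mem_nhds hxV
    obtain ⟨δ, hδ, hball⟩ := Metric.mem_nhds_iff.1 hnh
    refine ⟨δ, hδ, fun s hs0 hsδ => ?_⟩
    have h1 : p + (2 * (t + s) - 1) • w ∈ V := hball (by simp [abs_of_pos hs0, hsδ])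
    have h2 : p + (2 * (t + (-s)) - 1) • w ∈ V := hball (by simp [abs_of_pos hs0, hsδ])
    have h3 := hconv.2 h2 h1 (show (0:ℝ) ≤ 1/2 by norm_num) (show (0:ℝ) ≤ 1/2 by norm_num)
      (by norm_num)
    have h4 : (1/2 : ℝ) • (p + (2 * (t + (-s)) - 1) • w) + (1/2 : ℝ) • (p + (2 * (t + s) - 1) • w)
        = p + (2 * t - 1) • w := by module
    rw [h4] at h3
    simp only [smul_eq_mul] at h3
    have h5 : t - s = t + (-s) := by ring
    simp only [h5]
    linarith) (θ := 1/2) (by constructor <;> norm_num)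
  have e1 : p + (2 * (1/2 : ℝ) - 1) • w = p := by norm_num
  have e2 : p + (2 * (0 : ℝ) - 1) • w = p - w := by
    rw [mul_zero, zero_sub, neg_one_smul, sub_eq_add_neg]
  have e3 : p + (2 * (1 : ℝ) - 1) • w = p + w := by norm_num
  simp only [e1, e2, e3] at key
  unfold D
  linarith

/-- `h n = 3^{-n}` -/
noncomputable def h (n : ℕ) : ℝ := (1/3 : ℝ) ^ n

lemma h_pos (n : ℕ) : 0 < h n := by unfold h; positivity
lemma h_succ (n : ℕ) : h (n+1) = h n / 3 := by unfold h; rw [pow_succ]; ring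

/-- midpoints structure -/
lemma struct (n : ℕ) : ∃ L : Set ℝ, (preCantorSet n = ⋃ m ∈ L, Icc (m - h n / 2) (m + h n / 2)) ∧
    (∀ m ∈ L, ∀ m' ∈ L, m ≠ m' → 2 * h n ≤ |m - m'|) := by
  induction n with
  | zero =>
    refine ⟨{1/2}, ?_, ?_⟩
    · ext x; simp [h]; norm_num
    · rintro m rfl m' rfl hne; exact absurd rfl hne
  | succ n ih =>
    obtain ⟨L, hL, hsep⟩ := ih
    have hmem : ∀ x, x ∈ preCantorSet n ↔ ∃ m ∈ L, m - h n / 2 ≤ x ∧ x ≤ m + h n / 2 := by
      intro x; rw [hL]; simp only [mem_iUnion, mem_Icc, exists_prop]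
    have hL01 : ∀ m ∈ L, h n / 2 ≤ m ∧ m ≤ 1 - h n / 2 := by
      intro m hm
      have hp := h_pos n
      have h1 : m - h n / 2 ∈ preCantorSet n := (hmem _).2 ⟨m, hm, by linarith, by linarith⟩
      have h2 : m + h n / 2 ∈ preCantorSet n := (hmem _).2 ⟨m, hm, by linarith, by linarith⟩
      have h3 := preCantorSet_subset_unitInterval h1
      have h4 := preCantorSet_subset_unitInterval h2
      exact ⟨by linarith [h3.1], by linarith [h4.2]⟩
    refine ⟨(· / 3) '' L ∪ (fun x ↦ (2 + x) / 3) '' L, ?_, ?_⟩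
    · ext x
      rw [preCantorSet_succ]
      simp only [mem_union, mem_image, mem_iUnion, mem_Icc, h_succ, hmem]
      constructor
      · rintro (⟨y, ⟨m, hm, h1, h2⟩, rfl⟩ | ⟨y, ⟨m, hm, h1, h2⟩, rfl⟩)
        · exact ⟨m / 3, Or.inl ⟨m, hm, rfl⟩, by linarith, by linarith⟩
        · exact ⟨(2 + m) / 3, Or.inr ⟨m, hm, rfl⟩, by linarith, by linarith⟩
      · rintro ⟨m', (⟨m, hm, rfl⟩ | ⟨m, hm, rfl⟩), h1, h2⟩
        · exact Or.inl ⟨3 * x, ⟨m, hm, by linarith, by linarith⟩, by ring⟩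
        · exact Or.inr ⟨3 * x - 2, ⟨m, hm, by linarith, by linarith⟩, by ring⟩
    · have hp := h_pos n
      rw [h_succ]
      rintro _ (⟨m, hm, rfl⟩ | ⟨m, hm, rfl⟩) _ (⟨m', hm', rfl⟩ | ⟨m', hm', rfl⟩) hne
      · have hne' : m ≠ m' := by rintro rfl; exact hne rfl
        have := hsep m hm m' hm' hne'
        have e : m / 3 - m' / 3 = (m - m') / 3 := by ring
        simp only [e, abs_div]
        rw [abs_of_pos (by norm_num : (0:ℝ) < 3)]; linarith
      · have h1 := hL01 m hm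
        have h2 := hL01 m' hm'
        have hh : h n ≤ 1 := by unfold h; exact pow_le_one₀ (by norm_num) (by norm_num)
        simp only
        rw [abs_sub_comm, le_abs]
        left; linarith [h1.1, h1.2, h2.1, h2.2]
      · have h1 := hL01 m hm
        have h2 := hL01 m' hm'
        have hh : h n ≤ 1 := by unfold h; exact pow_le_one₀ (by norm_num) (by norm_num)
        simp only
        rw [le_abs]
        left; linarith [h1.1, h1.2, h2.1, h2.2]
      · have hne' : m ≠ m' := by rintro rfl; exact hne rfl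
        have := hsep m hm m' hm' hne'
        have e : (2 + m) / 3 - (2 + m') / 3 = (m - m') / 3 := by ring
        simp only [e, abs_div]
        rw [abs_of_pos (by norm_num : (0:ℝ) < 3)]; linarith

/-- thickening of the pre-Cantor set -/
def T (n : ℕ) (ρ : ℝ) : Set ℝ := thickening (ρ * h n) (preCantorSet n)

lemma mem_T {n : ℕ} {ρ x : ℝ} : x ∈ T n ρ ↔ ∃ z ∈ preCantorSet n, |x - z| < ρ * h n := by
  unfold T; rw [mem_thickening_iff]; rfl

lemma isOpen_T (n : ℕ) (ρ : ℝ) : IsOpen (T n ρ) := isOpen_thickening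

lemma T_mono {n : ℕ} {ρ ρ' : ℝ} (hρ : ρ ≤ ρ') : T n ρ ⊆ T n ρ' :=
  thickening_mono (mul_le_mul_of_nonneg_right hρ (h_pos n).le) _

lemma T_shift {n : ℕ} {ρ r x s : ℝ} (hx : x ∈ T n ρ) (hs : |s| ≤ r * h n) : x + s ∈ T n (ρ + r) := by
  rw [mem_T] at hx ⊢
  obtain ⟨z, hz, hxz⟩ := hx
  refine ⟨z, hz, ?_⟩
  have : x + s - z = (x - z) + s := by ring
  rw [this]
  have := abs_add_le (x - z) s
  nlinarith

lemma T_succ {n : ℕ} {ρ : ℝ} : T (n+1) ρ ⊆ T n (ρ / 3) := by
  intro x hx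
  rw [mem_T] at hx ⊢
  obtain ⟨z, hz, hxz⟩ := hx
  refine ⟨z, preCantorSet_antitone (Nat.le_succ n) hz, ?_⟩
  rw [h_succ] at hxz
  linarith

lemma T_near {n : ℕ} {L : Set ℝ} (hL : preCantorSet n = ⋃ m ∈ L, Icc (m - h n / 2) (m + h n / 2))
    {ρ x m : ℝ} (hρ : 0 < ρ) (hm : m ∈ L) (hx : |x - m| < (1/2 + ρ) * h n) : x ∈ T n ρ := by
  have hp := h_pos n
  have hmem : ∀ x, m - h n / 2 ≤ x → x ≤ m + h n / 2 → x ∈ preCantorSet n := by
    intro x h1 h2; rw [hL]; simp only [mem_iUnion, mem_Icc]; exact ⟨m, hm, h1, h2⟩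
  rw [mem_T]
  rw [abs_lt] at hx
  have hρh : 0 < ρ * h n := by positivity
  rcases le_total x (m - h n / 2) with h1 | h1
  · refine ⟨m - h n / 2, hmem _ le_rfl (by linarith), ?_⟩
    rw [abs_lt]; constructor <;> nlinarith
  · rcases le_total x (m + h n / 2) with h2 | h2
    · exact ⟨x, hmem _ h1 h2, by simpa using hρh⟩
    · refine ⟨m + h n / 2, hmem _ (by linarith) le_rfl, ?_⟩
      rw [abs_lt]; constructor <;> nlinarith

lemma T_far {n : ℕ} {L : Set ℝ} (hL : preCantorSet n = ⋃ m ∈ L, Icc (m - h n / 2) (m + h n / 2))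
    (hsep : ∀ m ∈ L, ∀ m' ∈ L, m ≠ m' → 2 * h n ≤ |m - m'|)
    {ρ x m : ℝ} (hm : m ∈ L) (hx : (1/2 + ρ) * h n ≤ |x - m|) (hx' : |x - m| ≤ (3/2 - ρ) * h n) :
    x ∉ T n ρ := by
  have hp := h_pos n
  rw [mem_T]
  rintro ⟨z, hz, hxz⟩
  rw [hL] at hz
  simp only [mem_iUnion, mem_Icc] at hz
  obtain ⟨m', hm', h1, h2⟩ := hz
  have hzm : |z - m'| ≤ h n / 2 := by rw [abs_le]; constructor <;> linarith
  by_cases hmm : m = m'
  · subst hmm
    have h3 : |x - m| ≤ |x - z| + |z - m| := abs_sub_le x z m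
    nlinarith
  · have h3 := hsep m hm m' hm' hmm
    have h4 : |m - m'| ≤ |m - x| + |x - m'| := abs_sub_le m x m'
    have h5 : |x - m'| ≤ |x - z| + |z - m'| := abs_sub_le x z m'
    rw [abs_sub_comm m x] at h4
    nlinarith

/-- selection of a chain -/
lemma select (τ : ℝ) (h0 : 0 < |τ|) (h1 : |τ| ≤ 1/50) : ∃ M : ℕ, ∀ n x, x ∈ T n (1/25) →
    ∃ i ≤ M, x + i * (τ * h n) ∉ T n (1/5 + 3/100) ∧
      ∀ m ≤ i, x + m * (τ * h n) ∈ T n (1/2 - 3/100) := by
  obtain ⟨M, hM⟩ := exists_nat_ge (2 / |τ| + 1)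
  refine ⟨M, fun n x hx => ?_⟩
  obtain ⟨L, hL, hsep⟩ := struct n
  have hp := h_pos n
  rw [mem_T, hL] at hx
  obtain ⟨z, hz, hxz⟩ := hx
  simp only [mem_iUnion, mem_Icc] at hz
  obtain ⟨m, hm, hz1, hz2⟩ := hz
  have hxm : |x - m| < (1/2 + 1/25) * h n := by
    rw [abs_lt] at hxz ⊢
    constructor <;> nlinarith
  -- sign
  set ε : ℝ := ((SignType.sign τ : SignType) : ℝ) with hε
  have hετ : ε * |τ| = τ := sign_mul_abs τ
  have hε1 : ε = 1 ∨ ε = -1 := by
    rcases lt_trichotomy τ 0 with ht | ht | ht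
    · right; simp [hε, ht]
    · subst ht; simp at h0
    · left; simp [hε, ht]
  have hε2 : ε * ε = 1 := by rcases hε1 with e | e <;> rw [e] <;> norm_num
  have hεabs : |ε| = 1 := by rcases hε1 with e | e <;> rw [e] <;> norm_num
  set u : ℝ := ε * (x - m) with hu
  have habs : ∀ t : ℝ, |x + t * (τ * h n) - m| = |u + t * (|τ| * h n)| := by
    intro t
    have : x + t * (τ * h n) - m = ε * (u + t * (|τ| * h n)) := by
      have e1 : ε * (u + t * (|τ| * h n)) = (ε * ε) * (x - m) + t * ((ε * |τ|) * h n) := by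
        rw [hu]; ring
      rw [e1, hε2, hετ]; ring
    rw [this, abs_mul, hεabs, one_mul]
  have hul : |u| < (1/2 + 1/25) * h n := by rw [hu, abs_mul, hεabs, one_mul]; exact hxm
  rw [abs_lt] at hul
  set σ := |τ| * h n with hσ
  have hσpos : 0 < σ := by positivity
  have hσle : σ ≤ 1/50 * h n := by rw [hσ]; nlinarith
  set tgt := (1/2 + (1/5 + 3/100)) * h n with htgt
  have hquot : 0 < (tgt - u) / σ := by
    apply div_pos _ hσpos
    rw [htgt]; nlinarith
  set i := ⌈(tgt - u) / σ⌉₊ with hi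
  have hi1 : (tgt - u) / σ ≤ i := Nat.le_ceil _
  have hi2 : (i : ℝ) < (tgt - u) / σ + 1 := Nat.ceil_lt_add_one hquot.le
  have hi1' : tgt - u ≤ i * σ := by rwa [div_le_iff₀ hσpos] at hi1
  have hi2' : i * σ < (tgt - u) + σ := by
    have := mul_lt_mul_of_pos_right hi2 hσpos
    rw [add_mul, div_mul_cancel₀ _ hσpos.ne', one_mul] at this
    exact this
  refine ⟨i, ?_, ?_, ?_⟩
  · have : (i:ℝ) ≤ M := by
      refine le_trans hi2.le (le_trans ?_ hM)
      have : (tgt - u) / σ ≤ 2 / |τ| := by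
        rw [div_le_div_iff₀ hσpos h0, hσ, htgt]
        nlinarith [mul_pos h0 hp]
      linarith
    exact_mod_cast this
  · apply T_far hL hsep hm
    · rw [habs]
      have : tgt ≤ u + i * σ := by linarith
      exact le_trans (by rw [htgt]) (le_trans this (le_abs_self _))
    · rw [habs, abs_le]
      constructor
      · rw [htgt] at hi1'; nlinarith
      · rw [htgt] at hi2'; nlinarith
  · intro j hj
    apply T_near hL (by norm_num) hm
    rw [habs, abs_lt]
    have hj' : (j:ℝ) * σ ≤ i * σ := mul_le_mul_of_nonneg_right (by exact_mod_cast hj) hσpos.le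
    have hj0 : 0 ≤ (j:ℝ) * σ := by positivity
    constructor
    · nlinarith
    · rw [htgt] at hi2'; nlinarith

end Pool.Agent.Q278.CD
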