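import Pool.Agent.Q278.CD.Level

open MeasureTheory Set Metric
open scoped ENNReal

namespace Pool.Agent.Q278.CD

/-- Cantor dust in the product -/
def A : Set (ℝ × ℝ) := {p | p.1 ∈ cantorSet ∧ p.2 ∈ cantorSet}

lemma cantor_sub (n : ℕ) {x : ℝ} (hx : x ∈ cantorSet) : x ∈ preCantorSet n := by
  unfold cantorSet at hx
  exact mem_iInter.1 hx n

lemma dense_compl : Dense (cantorSetᶜ : Set ℝ) := by
  rw [Metric.dense_iff]
  intro x r hr
  by_cases hx : x ∈ cantorSet
  · obtain ⟨n, hn⟩ := exists_pow_lt_of_lt_one (show (0:ℝ) < r / 2 by linarith)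
      (show (1/3 : ℝ) < 1 by norm_num)
    have hn' : h n < r / 2 := hn
    obtain ⟨L, hL, hsep⟩ := struct n
    have hxn := cantor_sub n hx
    rw [hL] at hxn
    simp only [mem_iUnion, mem_Icc, exists_prop] at hxn
    obtain ⟨m, hm, h1, h2⟩ := hxn
    have hp := h_pos n
    refine ⟨m + 3/4 * h n, ?_, ?_⟩
    · rw [mem_ball, Real.dist_eq, abs_lt]; constructor <;> linarith
    · intro hcon
      have hfar : m + 3/4 * h n ∉ T n (1/4) := by
        apply T_far hL hsep hm
        · rw [show m + 3/4 * h n - m = 3/4 * h n by ring, abs_of_pos (by positivity)]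
          linarith
        · rw [show m + 3/4 * h n - m = 3/4 * h n by ring, abs_of_pos (by positivity)]
          linarith
      apply hfar
      rw [mem_T]
      exact ⟨_, cantor_sub n hcon, by simp; positivity⟩
  · exact ⟨x, mem_ball_self hr, hx⟩

lemma axis_x {F : ℝ × ℝ → ℝ} (hF : Continuous F) (hl : LocConv F Aᶜ) (t : ℝ) (p : ℝ × ℝ) :
    0 ≤ D F (t, 0) p := by
  obtain ⟨x, y⟩ := p
  have hcl : IsClosed {y : ℝ | 0 ≤ D F (t, 0) (x, y)} := by
    apply isClosed_le continuous_const
    exact (cont_D hF _).comp (by fun_prop)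
  have hsub : (cantorSetᶜ : Set ℝ) ⊆ {y : ℝ | 0 ≤ D F (t, 0) (x, y)} := by
    intro y hy
    apply seg_conv hF hl
    intro s _ hcon
    apply hy
    have := hcon.2
    simpa using this
  have := hcl.closure_subset_iff.2 hsub
  rw [dense_compl.closure_eq] at this
  exact this (mem_univ y)

lemma axis_y {F : ℝ × ℝ → ℝ} (hF : Continuous F) (hl : LocConv F Aᶜ) (t : ℝ) (p : ℝ × ℝ) :
    0 ≤ D F (0, t) p := by
  obtain ⟨x, y⟩ := p
  have hcl : IsClosed {x : ℝ | 0 ≤ D F (0, t) (x, y)} := by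
    apply isClosed_le continuous_const
    exact (cont_D hF _).comp (by fun_prop)
  have hsub : (cantorSetᶜ : Set ℝ) ⊆ {x : ℝ | 0 ≤ D F (0, t) (x, y)} := by
    intro x hx
    apply seg_conv hF hl
    intro s _ hcon
    apply hx
    have := hcon.1
    simpa using this
  have := hcl.closure_subset_iff.2 hsub
  rw [dense_compl.closure_eq] at this
  exact this (mem_univ x)

/-- mixed difference -/
def Dl (F : ℝ × ℝ → ℝ) (α β : ℝ) (p : ℝ × ℝ) : ℝ :=
  F (p.1 + α, p.2 + β) - F (p.1 + α, p.2) - F (p.1, p.2 + β) + F p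

lemma D_decomp (F : ℝ × ℝ → ℝ) (α β : ℝ) (p : ℝ × ℝ) :
    D F (α, β) p = D F (α, 0) p + D F (0, β) p + Dl F α β p + Dl F α β (p - (α, β)) := by
  obtain ⟨x, y⟩ := p
  unfold D Dl
  simp only [Prod.mk_add_mk, Prod.mk_sub_mk, add_zero, sub_zero, sub_add_cancel]
  ring

lemma ring_ineq {F : ℝ × ℝ → ℝ} (hF : Continuous F) (hl : LocConv F Aᶜ) {α β : ℝ} {q : ℝ × ℝ}
    (hq : ∀ s t : ℝ, |s| ≤ 1 → |t| ≤ 1 → (q.1 + α + s * α, q.2 + β + t * β) ∉ A) :
    |Dl F (2 * α) (2 * β) q| ≤ 2 * D F (0, β) (q + (α, β)) + D F (α, 0) (q + (α, 2 * β)) +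
      D F (α, 0) (q + (α, 0)) := by
  obtain ⟨x, y⟩ := q
  have h1 : 0 ≤ D F (α, β) (x + α, y + β) := by
    apply seg_conv hF hl
    intro t ht
    have := hq t t ht ht
    simpa using this
  have h2 : 0 ≤ D F (α, -β) (x + α, y + β) := by
    apply seg_conv hF hl
    intro t ht
    have := hq t (-t) ht (by rwa [abs_neg])
    simpa using this
  unfold D at h1 h2 ⊢
  unfold Dl
  simp only [Prod.mk_add_mk, Prod.mk_sub_mk, add_zero, sub_zero] at h1 h2 ⊢
  have e1 : x + α + α = x + 2 * α := by ring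
  have e2 : y + β + β = y + 2 * β := by ring
  have e3 : x + α - α = x := by ring
  have e4 : y + β - β = y := by ring
  have e5 : y + β + -β = y := by ring
  have e6 : y + β - -β = y + 2 * β := by ring
  simp only [e1, e2, e3, e4, e5, e6] at h1 h2 ⊢
  rw [abs_le]
  constructor <;> linarith

lemma up_le {u : ℕ → ℝ} {B : ℝ} (j : ℕ) (hu : ∀ m < j, u (m + 1) - u m ≤ B) :
    u j - u 0 ≤ j * B := by
  induction j with
  | zero => simp
  | succ j ih =>
    have h1 := ih fun m hm => hu m (by omega)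
    have h2 := hu j (by omega)
    push_cast
    linarith

lemma up_ge {u : ℕ → ℝ} (j : ℕ) (hu : ∀ m < j, 0 ≤ u (m + 1) - u m) : u 0 ≤ u j := by
  induction j with
  | zero => simp
  | succ j ih =>
    have h1 := ih fun m hm => hu m (by omega)
    have h2 := hu j (by omega)
    linarith

lemma up_abs {u : ℕ → ℝ} {B : ℝ} (j : ℕ) (hu : ∀ m < j, |u (m + 1) - u m| ≤ B) :
    |u j - u 0| ≤ j * B := by
  rw [abs_le]
  constructor
  · have := up_le (u := fun m => - u m) (B := B) j (fun m hm => by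
      have := (abs_le.1 (hu m hm)).1
      linarith)
    linarith
  · exact up_le j fun m hm => (abs_le.1 (hu m hm)).2

/-- the chain around the ring -/
lemma chain {F : ℝ × ℝ → ℝ} {x y α β B : ℝ} {i j l : ℕ} (hl1 : 1 ≤ l)
    (hmono : ∀ p, 0 ≤ D F (α, 0) p)
    (hxr : ∀ m : ℕ, m ≤ j → D F (α, 0) (x + m * α, y + l * β) ≤ B)
    (hxl : ∀ m : ℕ, m ≤ i → D F (α, 0) (x + m * (-α), y + l * β) ≤ B)
    (hyr : ∀ m : ℕ, m < l → |Dl F α β (x + j * α, y + m * β)| ≤ B)
    (hyl : ∀ m : ℕ, m < l → |Dl F α β (x + i * (-α), y + m * β)| ≤ B) :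
    |Dl F α β (x, y)| ≤ (i + j + 2 * l) * B := by
  set inc : ℝ → ℝ → ℝ := fun x' y' => F (x' + α, y') - F (x', y') with hinc
  have hstep : ∀ x' y', inc (x' + α) y' - inc x' y' = D F (α, 0) (x' + α, y') := by
    intro x' y'
    simp only [hinc]
    unfold D
    simp only [Prod.mk_add_mk, Prod.mk_sub_mk, add_zero, sub_zero, add_sub_cancel_right]
    ring
  have hDl : ∀ x' y', inc x' (y' + β) - inc x' y' = Dl F α β (x', y') := by
    intro x' y'
    simp only [hinc]
    unfold Dl
    simp only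
    ring
  -- monotonicity
  have m1 : ∀ y', inc x y' ≤ inc (x + j * α) y' := by
    intro y'
    have := up_ge (u := fun m : ℕ => inc (x + m * α) y') j (fun m _ => by
      have e : x + ((m+1:ℕ):ℝ) * α = (x + m * α) + α := by push_cast; ring
      simp only [e, hstep]
      exact hmono _)
    simpa using this
  have m2 : ∀ y', inc (x + i * (-α)) y' ≤ inc x y' := by
    intro y'
    have := up_ge (u := fun m : ℕ => - inc (x + m * (-α)) y') i (fun m _ => by
      have e : x + (m:ℝ) * (-α) = (x + ((m+1:ℕ):ℝ) * (-α)) + α := by push_cast; ring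
      have := hstep (x + ((m+1:ℕ):ℝ) * (-α)) y'
      rw [← e] at this
      have h0 := hmono (x + (m:ℝ) * (-α), y')
      linarith)
    simp at this
    simpa using this
  -- top
  have t1 : inc (x + j * α) (y + l * β) - inc x (y + l * β) ≤ j * B := by
    have := up_le (u := fun m : ℕ => inc (x + m * α) (y + l * β)) (B := B) j (fun m hm => by
      have e : x + ((m+1:ℕ):ℝ) * α = (x + m * α) + α := by push_cast; ring
      have h1 := hxr (m+1) (by omega)
      rw [e] at h1
      simp only [e, hstep]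
      exact h1)
    simpa using this
  have t2 : inc x (y + l * β) - inc (x + i * (-α)) (y + l * β) ≤ i * B := by
    have := up_le (u := fun m : ℕ => - inc (x + m * (-α)) (y + l * β)) (B := B) i (fun m hm => by
      have e : x + (m:ℝ) * (-α) = (x + ((m+1:ℕ):ℝ) * (-α)) + α := by push_cast; ring
      have := hstep (x + ((m+1:ℕ):ℝ) * (-α)) (y + l * β)
      rw [← e] at this
      have h0 := hxl m (by omega)
      linarith)
    simp only [Nat.cast_zero, zero_mul, add_zero] at this
    linarith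
  -- vertical
  have v1 := up_abs (u := fun m : ℕ => inc (x + j * α) (y + m * β)) (B := B) l (fun m hm => by
    have e : y + ((m+1:ℕ):ℝ) * β = (y + m * β) + β := by push_cast; ring
    simp only [e, hDl]
    exact hyr m hm)
  have v2 := up_abs (u := fun m : ℕ => inc (x + i * (-α)) (y + m * β)) (B := B) l (fun m hm => by
    have e : y + ((m+1:ℕ):ℝ) * β = (y + m * β) + β := by push_cast; ring
    simp only [e, hDl]
    exact hyl m hm)
  have w1 := hyr 0 (by omega)
  have w2 := hyl 0 (by omega)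
  rw [← hDl] at w1 w2
  simp only [Nat.cast_zero, zero_mul, add_zero] at v1 v2 w1 w2
  have hB : 0 ≤ B := le_trans (abs_nonneg _) w1
  -- refined: from 1 to l
  have v1' := up_abs (u := fun m : ℕ => inc (x + j * α) (y + (m+1:ℕ) * β)) (B := B) (l-1)
    (fun m hm => by
      have e : y + ((m+1+1:ℕ):ℝ) * β = (y + ((m+1:ℕ):ℝ) * β) + β := by push_cast; ring
      simp only [e, hDl]
      exact hyr (m+1) (by omega))
  have v2' := up_abs (u := fun m : ℕ => inc (x + i * (-α)) (y + (m+1:ℕ) * β)) (B := B) (l-1)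
    (fun m hm => by
      have e : y + ((m+1+1:ℕ):ℝ) * β = (y + ((m+1:ℕ):ℝ) * β) + β := by push_cast; ring
      simp only [e, hDl]
      exact hyl (m+1) (by omega))
  have el : l - 1 + 1 = l := by omega
  have el' : ((l-1:ℕ):ℝ) ≤ l := by exact_mod_cast Nat.sub_le l 1
  simp only [el, zero_add, Nat.cast_one, one_mul] at v1' v2'
  have v1'' : |inc (x + j * α) (y + l * β) - inc (x + j * α) (y + β)| ≤ l * B :=
    le_trans v1' (mul_le_mul_of_nonneg_right el' hB)
  have v2'' : |inc (x + i * (-α)) (y + l * β) - inc (x + i * (-α)) (y + β)| ≤ l * B :=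
    le_trans v2' (mul_le_mul_of_nonneg_right el' hB)
  rw [← hDl]
  rw [abs_le] at v1 v2 v1'' v2'' ⊢
  have a1 := m1 y
  have a2 := m2 y
  have a3 := m1 (y + β)
  have a4 := m2 (y + β)
  constructor <;> linarith [v1.1, v1.2, v2.1, v2.2, v1''.1, v1''.2, v2''.1, v2''.2]

end Pool.Agent.Q278.CD
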