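import Pool.Agent.Q278.CD.Core

open MeasureTheory Set Metric
open scoped ENNReal

namespace Pool.Agent.Q278.CD

/-- the inner ring -/
abbrev W' (n : ℕ) : Set (ℝ × ℝ) := W n (1/5 + 1/100) (1/2 - 1/100)

/-- the sum of the two second differences on the inner ring -/
noncomputable def H (F : ℝ × ℝ → ℝ) (n : ℕ) (a b : ℝ) (p : ℝ × ℝ) : ℝ :=
  (W' n).indicator (fun q => D F (a, 0) q + D F (0, b) q) p

/-- sum over shifts -/
noncomputable def Z (F : ℝ × ℝ → ℝ) (n : ℕ) (a b : ℝ) (K : ℕ) (p : ℝ × ℝ) : ℝ :=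
  ∑ i ∈ Finset.Icc (-(K:ℤ)) K, ∑ m ∈ Finset.Icc (-(K:ℤ)) K,
    H F n a b (p + ((i:ℝ) * a, (m:ℝ) * b))

section
variable {F : ℝ × ℝ → ℝ} (hF : Continuous F) (hl : LocConv F Aᶜ)
include hF hl

lemma H_nonneg (n : ℕ) (a b : ℝ) (p : ℝ × ℝ) : 0 ≤ H F n a b p := by
  unfold H
  apply indicator_nonneg
  intro q _
  exact add_nonneg (axis_x hF hl _ _) (axis_y hF hl _ _)

lemma H_le_Z (n : ℕ) (a b : ℝ) (K : ℕ) (p : ℝ × ℝ) (i m : ℤ) (hi : |i| ≤ K) (hm : |m| ≤ K) :
    H F n a b (p + ((i:ℝ) * a, (m:ℝ) * b)) ≤ Z F n a b K p := by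
  unfold Z
  rw [abs_le] at hi hm
  refine le_trans ?_ (Finset.single_le_sum (f := fun i : ℤ => ∑ m ∈ Finset.Icc (-(K:ℤ)) K,
    H F n a b (p + ((i:ℝ) * a, (m:ℝ) * b))) (fun i _ => Finset.sum_nonneg fun m _ => H_nonneg hF hl _ _ _ _)
    (Finset.mem_Icc.2 hi))
  exact Finset.single_le_sum (f := fun m : ℤ => H F n a b (p + ((i:ℝ) * a, (m:ℝ) * b)))
    (fun m _ => H_nonneg hF hl _ _ _ _) (Finset.mem_Icc.2 hm)

lemma X_le_Z (n : ℕ) (a b : ℝ) (K : ℕ) (p q : ℝ × ℝ) (i m : ℤ) (hi : |i| ≤ K) (hm : |m| ≤ K)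
    (hq : q = p + ((i:ℝ) * a, (m:ℝ) * b)) (hW : q ∈ W' n) : D F (a, 0) q ≤ Z F n a b K p := by
  have h1 := H_le_Z hF hl n a b K p i m hi hm
  rw [← hq] at h1
  unfold H at h1
  rw [indicator_of_mem hW] at h1
  have h2 := axis_y hF hl b q
  linarith

lemma Y_le_Z (n : ℕ) (a b : ℝ) (K : ℕ) (p q : ℝ × ℝ) (i m : ℤ) (hi : |i| ≤ K) (hm : |m| ≤ K)
    (hq : q = p + ((i:ℝ) * a, (m:ℝ) * b)) (hW : q ∈ W' n) : D F (0, b) q ≤ Z F n a b K p := by
  have h1 := H_le_Z hF hl n a b K p i m hi hm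
  rw [← hq] at h1
  unfold H at h1
  rw [indicator_of_mem hW] at h1
  have h2 := axis_x hF hl a q
  linarith

omit hF hl in
lemma W_step {n : ℕ} {q s : ℝ × ℝ} (hq : q ∈ W n (1/5 + 3/100) (1/2 - 3/100))
    (h1 : |s.1| ≤ 2/100 * h n) (h2 : |s.2| ≤ 2/100 * h n) : q + s ∈ W' n := by
  have := W_shift hq h1 h2
  unfold W'
  convert this using 2 <;> norm_num

lemma ring_Dl {n : ℕ} {a b : ℝ} (ha : |a| ≤ 1/100 * h n) (hb : |b| ≤ 1/100 * h n) {K : ℕ}
    {p q : ℝ × ℝ} {i m : ℤ} (hi : |i| + 2 ≤ K) (hm : |m| + 2 ≤ K)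
    (hq : q = p + ((i:ℝ) * a, (m:ℝ) * b)) (hW : q ∈ W n (1/5 + 3/100) (1/2 - 3/100)) :
    |Dl F (2 * a) (2 * b) q| ≤ 4 * Z F n a b K p := by
  have hp := h_pos n
  have hi' := abs_le.1 (show |i| ≤ (K:ℤ) - 2 by linarith)
  have hm' := abs_le.1 (show |m| ≤ (K:ℤ) - 2 by linarith)
  have h2b : |2 * b| ≤ 2/100 * h n := by rw [abs_mul, abs_two]; linarith
  have key := ring_ineq hF hl (α := a) (β := b) (q := q) (by
    intro s t hs ht hA
    apply hW.2
    have c1 := cantor_sub n hA.1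
    have c2 := cantor_sub n hA.2
    constructor
    · rw [mem_T]
      refine ⟨_, c1, ?_⟩
      have : q.1 - (q.1 + a + s * a) = -(a + s * a) := by ring
      rw [this, abs_neg]
      have h1 : |a + s * a| ≤ |a| + |s| * |a| := by
        refine le_trans (abs_add_le _ _) ?_; rw [abs_mul]
      have h2 : |s| * |a| ≤ 1 * |a| := mul_le_mul_of_nonneg_right hs (abs_nonneg _)
      nlinarith
    · rw [mem_T]
      refine ⟨_, c2, ?_⟩
      have : q.2 - (q.2 + b + t * b) = -(b + t * b) := by ring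
      rw [this, abs_neg]
      have h1 : |b + t * b| ≤ |b| + |t| * |b| := by
        refine le_trans (abs_add_le _ _) ?_; rw [abs_mul]
      have h2 : |t| * |b| ≤ 1 * |b| := mul_le_mul_of_nonneg_right ht (abs_nonneg _)
      nlinarith)
  have y1 := Y_le_Z hF hl n a b K p (q + (a, b)) (i+1) (m+1)
    (abs_le.2 ⟨by linarith [hi'.1], by linarith [hi'.2]⟩) (abs_le.2 ⟨by linarith [hm'.1], by linarith [hm'.2]⟩)
    (by rw [hq]; ext <;> simp <;> ring)
    (W_step hW (by simp only; linarith) (by simp only; linarith))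
  have x1 := X_le_Z hF hl n a b K p (q + (a, 2 * b)) (i+1) (m+2)
    (abs_le.2 ⟨by linarith [hi'.1], by linarith [hi'.2]⟩) (abs_le.2 ⟨by linarith [hm'.1], by linarith [hm'.2]⟩)
    (by rw [hq]; ext <;> simp <;> ring)
    (W_step hW (by simp only; linarith) (by simp only; linarith))
  have x2 := X_le_Z hF hl n a b K p (q + (a, 0)) (i+1) m
    (abs_le.2 ⟨by linarith [hi'.1], by linarith [hi'.2]⟩) (abs_le.2 ⟨by linarith [hm'.1], by linarith [hm'.2]⟩)
    (by rw [hq]; ext <;> simp; ring)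
    (W_step hW (by simp only; linarith) (by simp only [abs_zero]; positivity))
  linarith

lemma ring_D2 {n : ℕ} {a b : ℝ} (ha : |a| ≤ 1/100 * h n) {K : ℕ}
    {p q : ℝ × ℝ} {i m : ℤ} (hi : |i| + 2 ≤ K) (hm : |m| + 2 ≤ K)
    (hq : q = p + ((i:ℝ) * a, (m:ℝ) * b)) (hW : q ∈ W n (1/5 + 3/100) (1/2 - 3/100)) :
    D F (2 * a, 0) q ≤ 4 * Z F n a b K p := by
  have hp := h_pos n
  have hi' := abs_le.1 (show |i| ≤ (K:ℤ) - 2 by linarith)
  have hm' := abs_le.1 (show |m| ≤ (K:ℤ) - 2 by linarith)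
  have x1 := X_le_Z hF hl n a b K p (q + (a, 0)) (i+1) m
    (abs_le.2 ⟨by linarith [hi'.1], by linarith [hi'.2]⟩) (abs_le.2 ⟨by linarith [hm'.1], by linarith [hm'.2]⟩)
    (by rw [hq]; ext <;> simp; ring)
    (W_step hW (by simp only; linarith) (by simp only [abs_zero]; positivity))
  have x2 := X_le_Z hF hl n a b K p q i m
    (abs_le.2 ⟨by linarith [hi'.1], by linarith [hi'.2]⟩) (abs_le.2 ⟨by linarith [hm'.1], by linarith [hm'.2]⟩)
    hq (by
      have := W_step hW (s := 0) (by simp; positivity) (by simp; positivity)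
      simpa using this)
  have x3 := X_le_Z hF hl n a b K p (q + (-a, 0)) (i-1) m
    (abs_le.2 ⟨by linarith [hi'.1], by linarith [hi'.2]⟩) (abs_le.2 ⟨by linarith [hm'.1], by linarith [hm'.2]⟩)
    (by rw [hq]; ext <;> simp; ring)
    (W_step hW (by simp only [abs_neg]; linarith) (by simp only [abs_zero]; positivity))
  have e : D F (2 * a, 0) q = D F (a, 0) (q + (a, 0)) + 2 * D F (a, 0) q + D F (a, 0) (q + (-a, 0)) := by
    unfold D
    have e1 : q + (a, 0) + (a, 0) = q + (2 * a, 0) := by ext <;> simp; ring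
    have e2 : q + (a, 0) - (a, 0) = q := by ext <;> simp
    have e3 : q + (-a, 0) + (a, 0) = q := by ext <;> simp
    have e4 : q + (-a, 0) - (a, 0) = q - (2 * a, 0) := by ext <;> simp; ring
    have e5 : q + (-a, 0) = q - (a, 0) := by ext <;> simp; ring
    rw [e1, e2, e3, e4, e5]; ring
  rw [e]; linarith

lemma main_pt {a b : ℝ} (ha0 : a ≠ 0) (hb0 : b ≠ 0) (ha : |a| ≤ 1/100) (hb : |b| ≤ 1/100) :
    ∃ C K : ℕ, ∀ n, ∀ p : ℝ × ℝ, p.1 ∈ T n (1/25) → p.2 ∈ T n (1/25) →
      |Dl F (2 * (a * h n)) (2 * (b * h n)) p| ≤ C * Z F n (a * h n) (b * h n) K p := by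
  obtain ⟨M1, hM1⟩ := select (-(2 * a)) (by simpa using ha0) (by rw [abs_neg, abs_mul, abs_two]; linarith)
  obtain ⟨M2, hM2⟩ := select (2 * a) (by simpa using ha0) (by rw [abs_mul, abs_two]; linarith)
  obtain ⟨M3, hM3⟩ := select (2 * b) (by simpa using hb0) (by rw [abs_mul, abs_two]; linarith)
  refine ⟨4 * (M1 + M2 + 2 * M3), 2 * (M1 + M2 + M3) + 2, fun n p hp1 hp2 => ?_⟩
  obtain ⟨x, y⟩ := p
  simp only at hp1 hp2
  obtain ⟨i, hi, hi1, hi2⟩ := hM1 n x hp1
  obtain ⟨j, hj, hj1, hj2⟩ := hM2 n x hp1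
  obtain ⟨l, hll, hl1, hl2⟩ := hM3 n y hp2
  have hp := h_pos n
  set α := a * h n with hα
  set β := b * h n with hβ
  have hαb : |α| ≤ 1/100 * h n := by rw [hα, abs_mul, abs_of_pos hp]; nlinarith
  have hβb : |β| ≤ 1/100 * h n := by rw [hβ, abs_mul, abs_of_pos hp]; nlinarith
  have r1 : -(2 * a) * h n = -(2 * α) := by rw [hα]; ring
  have r2 : 2 * a * h n = 2 * α := by rw [hα]; ring
  have r3 : 2 * b * h n = 2 * β := by rw [hβ]; ring
  simp only [r1] at hi1 hi2
  simp only [r2] at hj1 hj2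
  simp only [r3] at hl1 hl2
  have hl0 : 1 ≤ l := by
    by_contra hcon
    have : l = 0 := by omega
    subst this
    apply hl1
    simp only [Nat.cast_zero, zero_mul, add_zero]
    exact T_mono (by norm_num) hp2
  have c1 := chain (F := F) (x := x) (y := y) (α := 2 * α) (β := 2 * β)
    (B := 4 * Z F n α β (2 * (M1 + M2 + M3) + 2) (x, y)) (i := i) (j := j) (l := l) hl0
    (axis_x hF hl _)
    (by
      intro m hm
      apply ring_D2 hF hl hαb (i := 2 * m) (m := 2 * l)
      · rw [abs_of_nonneg (by positivity)]; push_cast; omega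
      · rw [abs_of_nonneg (by positivity)]; push_cast; omega
      · ext <;> simp <;> ring
      · exact ⟨⟨hj2 m hm, hl2 l le_rfl⟩, fun hc => hl1 hc.2⟩)
    (by
      intro m hm
      apply ring_D2 hF hl hαb (i := -(2 * m)) (m := 2 * l)
      · rw [abs_neg, abs_of_nonneg (by positivity)]; push_cast; omega
      · rw [abs_of_nonneg (by positivity)]; push_cast; omega
      · ext <;> simp <;> ring
      · exact ⟨⟨hi2 m hm, hl2 l le_rfl⟩, fun hc => hl1 hc.2⟩)
    (by
      intro m hm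
      apply ring_Dl hF hl hαb hβb (i := 2 * j) (m := 2 * m)
      · rw [abs_of_nonneg (by positivity)]; push_cast; omega
      · rw [abs_of_nonneg (by positivity)]; push_cast; omega
      · ext <;> simp <;> ring
      · exact ⟨⟨hj2 j le_rfl, hl2 m hm.le⟩, fun hc => hj1 hc.1⟩)
    (by
      intro m hm
      apply ring_Dl hF hl hαb hβb (i := -(2 * i)) (m := 2 * m)
      · rw [abs_neg, abs_of_nonneg (by positivity)]; push_cast; omega
      · rw [abs_of_nonneg (by positivity)]; push_cast; omega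
      · ext <;> simp <;> ring
      · exact ⟨⟨hi2 i le_rfl, hl2 m hm.le⟩, fun hc => hi1 hc.1⟩)
  refine le_trans c1 ?_
  have hZ : 0 ≤ Z F n α β (2 * (M1 + M2 + M3) + 2) (x, y) :=
    Finset.sum_nonneg fun i _ => Finset.sum_nonneg fun m _ => H_nonneg hF hl _ _ _ _
  have hc : ((i:ℝ) + j + 2 * l) ≤ M1 + M2 + 2 * M3 := by
    have h1 : (i:ℝ) ≤ M1 := by exact_mod_cast hi
    have h2 : (j:ℝ) ≤ M2 := by exact_mod_cast hj
    have h3 : (l:ℝ) ≤ M3 := by exact_mod_cast hll
    linarith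
  calc _ ≤ ((M1:ℝ) + M2 + 2 * M3) * (4 * Z F n α β (2 * (M1 + M2 + M3) + 2) (x, y)) :=
        mul_le_mul_of_nonneg_right hc (by linarith)
    _ = _ := by push_cast; ring

/-- the core region -/
def Kc (n : ℕ) : Set (ℝ × ℝ) := {p | p.1 ∈ T n (1/25) ∧ p.2 ∈ T n (1/25)}

omit hF hl in
lemma meas_Kc (n : ℕ) : MeasurableSet (Kc n) :=
  ((isOpen_T n _).preimage continuous_fst |>.inter
      ((isOpen_T n _).preimage continuous_snd)).measurableSet

lemma main_int {a b : ℝ} (ha0 : a ≠ 0) (hb0 : b ≠ 0) (ha : |a| ≤ 1/100) (hb : |b| ≤ 1/100) :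
    ∃ C : ℕ, ∀ n, J (Kc n) (fun p => |Dl F (2 * (a * h n)) (2 * (b * h n)) p|) ≤
      C * (J (W' n) (D F (h n • (a, 0))) + J (W' n) (D F (h n • (0, b)))) := by
  obtain ⟨C, K, hCK⟩ := main_pt hF hl ha0 hb0 ha hb
  refine ⟨C * ((2 * K + 1) * (2 * K + 1)), fun n => ?_⟩
  have e1 : h n • ((a, 0) : ℝ × ℝ) = (a * h n, 0) := by ext <;> simp [mul_comm]
  have e2 : h n • ((0, b) : ℝ × ℝ) = (0, b * h n) := by ext <;> simp [mul_comm]
  rw [e1, e2]
  set α := a * h n
  set β := b * h n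
  set gx : ℝ × ℝ → ℝ≥0∞ := (W' n).indicator (fun p => ENNReal.ofReal (D F (α, 0) p)) with hgx
  set gy : ℝ × ℝ → ℝ≥0∞ := (W' n).indicator (fun p => ENNReal.ofReal (D F (0, β) p)) with hgy
  have hpt : ∀ p, (Kc n).indicator (fun p => ENNReal.ofReal |Dl F (2 * α) (2 * β) p|) p ≤
      (C:ℝ≥0∞) * ∑ i ∈ Finset.Icc (-(K:ℤ)) K, ∑ m ∈ Finset.Icc (-(K:ℤ)) K,
        (gx (p + ((i:ℝ) * α, (m:ℝ) * β)) + gy (p + ((i:ℝ) * α, (m:ℝ) * β))) := by
    intro p
    by_cases hp : p ∈ Kc n
    · rw [indicator_of_mem hp]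
      refine le_trans (ENNReal.ofReal_le_ofReal (hCK n p hp.1 hp.2)) ?_
      rw [ENNReal.ofReal_mul (Nat.cast_nonneg _), ENNReal.ofReal_natCast]
      refine mul_le_mul_right ?_ _
      unfold Z
      refine le_trans (ofReal_sum_le _ _) (Finset.sum_le_sum fun i _ => ?_)
      refine le_trans (ofReal_sum_le _ _) (Finset.sum_le_sum fun m _ => ?_)
      unfold H
      by_cases hW : (p + ((i:ℝ) * α, (m:ℝ) * β)) ∈ W' n
      · rw [indicator_of_mem hW, hgx, hgy, indicator_of_mem hW, indicator_of_mem hW]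
        exact ENNReal.ofReal_add_le
      · rw [indicator_of_notMem hW]; simp
    · rw [indicator_of_notMem hp]; exact bot_le
  have mgx : ∀ s : ℝ × ℝ, Measurable fun p => gx (p + s) := fun s => meas_ind (meas_W _ _ _) (cont_D hF _) s
  have mgy : ∀ s : ℝ × ℝ, Measurable fun p => gy (p + s) := fun s => meas_ind (meas_W _ _ _) (cont_D hF _) s
  calc J (Kc n) (fun p => |Dl F (2 * α) (2 * β) p|)
      ≤ ∫⁻ p, (C:ℝ≥0∞) * ∑ i ∈ Finset.Icc (-(K:ℤ)) K, ∑ m ∈ Finset.Icc (-(K:ℤ)) K,
        (gx (p + ((i:ℝ) * α, (m:ℝ) * β)) + gy (p + ((i:ℝ) * α, (m:ℝ) * β))) := lintegral_mono hpt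
    _ = (C:ℝ≥0∞) * ∑ i ∈ Finset.Icc (-(K:ℤ)) K, ∑ m ∈ Finset.Icc (-(K:ℤ)) K,
        (J (W' n) (D F (α, 0)) + J (W' n) (D F (0, β))) := by
        rw [lintegral_const_mul]
        · congr 1
          rw [lintegral_finsetSum]
          · refine Finset.sum_congr rfl fun i _ => ?_
            rw [lintegral_finsetSum]
            · refine Finset.sum_congr rfl fun m _ => ?_
              rw [lintegral_add_left (mgx _)]
              congr 1
              · exact J_shift _ _ _
              · exact J_shift _ _ _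
            · intro m _; exact (mgx _).add (mgy _)
          · intro i _; exact Finset.measurable_sum _ fun m _ => (mgx _).add (mgy _)
        · exact Finset.measurable_sum _ fun i _ => Finset.measurable_sum _ fun m _ => (mgx _).add (mgy _)
    _ = _ := by
        simp only [Finset.sum_const, Int.card_Icc, nsmul_eq_mul]
        have : ((K:ℤ) + 1 - -(K:ℤ)).toNat = 2 * K + 1 := by omega
        rw [this]
        push_cast
        ring

lemma e_le {a b : ℝ} (ha : |a| < 1/100) (hb : |b| < 1/100) (n : ℕ) (p : ℝ × ℝ) :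
    ENNReal.ofReal (-D F (h n • (2 * a, 2 * b)) p) ≤
      (Kc n).indicator (fun p => ENNReal.ofReal |Dl F (2 * (a * h n)) (2 * (b * h n)) p|) p +
      (Kc n).indicator (fun p => ENNReal.ofReal |Dl F (2 * (a * h n)) (2 * (b * h n)) p|)
        (p + -(2 * (a * h n), 2 * (b * h n))) := by
  have hp := h_pos n
  have e : h n • ((2 * a, 2 * b) : ℝ × ℝ) = (2 * (a * h n), 2 * (b * h n)) := by
    ext <;> simp <;> ring
  rw [e]
  set α := 2 * (a * h n) with hα
  set β := 2 * (b * h n) with hβ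
  have hαb : |α| < 2/100 * h n := by
    rw [hα, abs_mul, abs_mul, abs_two, abs_of_pos hp]; nlinarith
  have hβb : |β| < 2/100 * h n := by
    rw [hβ, abs_mul, abs_mul, abs_two, abs_of_pos hp]; nlinarith
  by_cases hseg : ∀ t : ℝ, |t| ≤ 1 → p + t • ((α, β) : ℝ × ℝ) ∈ Aᶜ
  · have := seg_conv hF hl hseg
    rw [ENNReal.ofReal_of_nonpos (by linarith)]
    exact bot_le
  · push Not at hseg
    obtain ⟨t, ht, htA⟩ := hseg
    rw [notMem_compl_iff] at htA
    have c1 := cantor_sub n htA.1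
    have c2 := cantor_sub n htA.2
    simp only [Prod.fst_add, Prod.smul_fst, smul_eq_mul, Prod.snd_add, Prod.smul_snd] at c1 c2
    have t1 : |t * α| ≤ 2/100 * h n := by
      rw [abs_mul]
      calc _ ≤ 1 * (2/100 * h n) := mul_le_mul ht hαb.le (abs_nonneg _) (by norm_num)
        _ = _ := by ring
    have t2 : |t * β| ≤ 2/100 * h n := by
      rw [abs_mul]
      calc _ ≤ 1 * (2/100 * h n) := mul_le_mul ht hβb.le (abs_nonneg _) (by norm_num)
        _ = _ := by ring
    -- p and p - (α, β) are in Kc n ; both coordinates close to preCantorSet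
    have hzero : ∀ z ∈ preCantorSet n, ∀ s : ℝ, |s| < 1/25 * h n → z + s ∈ T n (1/25) := by
      intro z hz s hs
      rw [mem_T]
      exact ⟨z, hz, by simpa using hs⟩
    have hp1 : p.1 ∈ T n (1/25) := by
      have := hzero _ c1 (-(t * α)) (by rw [abs_neg]; linarith)
      simpa using this
    have hp2 : p.2 ∈ T n (1/25) := by
      have := hzero _ c2 (-(t * β)) (by rw [abs_neg]; linarith)
      simpa using this
    have hq1 : (p + -((α, β) : ℝ × ℝ)).1 ∈ T n (1/25) := by
      have := hzero _ c1 (-(t * α) + -α) (by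
        have h1 := abs_add_le (-(t * α)) (-α)
        rw [abs_neg, abs_neg] at h1
        linarith)
      have e1 : p.1 + t * α + (-(t * α) + -α) = (p + -((α, β) : ℝ × ℝ)).1 := by
        simp only [Prod.fst_add, Prod.fst_neg]; ring
      rwa [e1] at this
    have hq2 : (p + -((α, β) : ℝ × ℝ)).2 ∈ T n (1/25) := by
      have := hzero _ c2 (-(t * β) + -β) (by
        have h1 := abs_add_le (-(t * β)) (-β)
        rw [abs_neg, abs_neg] at h1
        linarith)
      have e1 : p.2 + t * β + (-(t * β) + -β) = (p + -((α, β) : ℝ × ℝ)).2 := by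
        simp only [Prod.snd_add, Prod.snd_neg]; ring
      rwa [e1] at this
    have hm1 : p ∈ Kc n := ⟨hp1, hp2⟩
    have hm2 : p + -((α, β) : ℝ × ℝ) ∈ Kc n := ⟨hq1, hq2⟩
    rw [indicator_of_mem hm1, indicator_of_mem hm2]
    have h1 := D_decomp F α β p
    have h2 := axis_x hF hl α p
    have h3 := axis_y hF hl β p
    rw [← sub_eq_add_neg]
    refine le_trans (ENNReal.ofReal_le_ofReal (?_ : _ ≤ |Dl F α β p| + |Dl F α β (p - (α, β))|))
      ENNReal.ofReal_add_le
    have h4 := neg_abs_le (Dl F α β p)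
    have h5 := neg_abs_le (Dl F α β (p - (α, β)))
    linarith

lemma e_int {a b : ℝ} (ha : |a| < 1/100) (hb : |b| < 1/100) (n : ℕ) :
    ∫⁻ p, ENNReal.ofReal (-D F (h n • (2 * a, 2 * b)) p) ≤
      2 * J (Kc n) (fun p => |Dl F (2 * (a * h n)) (2 * (b * h n)) p|) := by
  refine le_trans (lintegral_mono (e_le hF hl ha hb n)) ?_
  have hc : Continuous (fun p => |Dl F (2 * (a * h n)) (2 * (b * h n)) p|) := by
    unfold Dl; fun_prop
  rw [lintegral_add_left]
  · rw [J_shift]
    exact le_of_eq (two_mul (J (Kc n) (fun p => |Dl F (2 * (a * h n)) (2 * (b * h n)) p|))).symm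
  · have := meas_ind (meas_Kc n) hc 0
    simpa using this

lemma D_nonneg (u p : ℝ × ℝ) : 0 ≤ D F u p := by
  by_contra hcon
  push Not at hcon
  -- both coordinates nonzero
  have hu1 : u.1 ≠ 0 := by
    intro h0
    have : u = (0, u.2) := by ext <;> simp [h0]
    rw [this] at hcon
    linarith [axis_y hF hl u.2 p]
  have hu2 : u.2 ≠ 0 := by
    intro h0
    have : u = (u.1, 0) := by ext <;> simp [h0]
    rw [this] at hcon
    linarith [axis_x hF hl u.1 p]
  -- choice of M
  obtain ⟨M, hM⟩ := exists_nat_gt (100 * (|u.1| + |u.2|))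
  have hMpos : (0:ℝ) < M := lt_of_le_of_lt (by positivity) hM
  set a := u.1 / (2 * M) with ha
  set b := u.2 / (2 * M) with hb
  have ha0 : a ≠ 0 := div_ne_zero hu1 (by positivity)
  have hb0 : b ≠ 0 := div_ne_zero hu2 (by positivity)
  have ha1 : |a| < 1/100 := by
    rw [ha, abs_div, abs_of_pos (by positivity : (0:ℝ) < 2 * M), div_lt_iff₀ (by positivity)]
    have := abs_nonneg u.2
    have := abs_nonneg u.1
    linarith
  have hb1 : |b| < 1/100 := by
    rw [hb, abs_div, abs_of_pos (by positivity : (0:ℝ) < 2 * M), div_lt_iff₀ (by positivity)]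
    have := abs_nonneg u.2
    have := abs_nonneg u.1
    linarith
  obtain ⟨C, hC⟩ := main_int hF hl ha0 hb0 ha1.le hb1.le
  -- neighbourhood of p
  have hcont := cont_D hF u
  have hopen : IsOpen {q | D F u q < D F u p / 2} := isOpen_lt hcont continuous_const
  have hmem : p ∈ {q | D F u q < D F u p / 2} := by
    simp only [mem_ofPred_eq]; linarith
  obtain ⟨η, hη, hball⟩ := Metric.isOpen_iff.1 hopen p hmem
  set c := -(D F u p / 2) with hc
  have hcpos : 0 < c := by rw [hc]; linarith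
  set v : ℝ≥0∞ := ENNReal.ofReal c * volume (ball p η) with hv
  have hv0 : v ≠ 0 := by
    rw [hv]
    exact mul_ne_zero (by simpa using hcpos) (measure_ball_pos _ _ hη).ne'
  have hbound : ∀ n, v ≤ (M:ℝ≥0∞) * M * (2 * C) *
      (9 ^ n * J (W' n) (D F (h n • (a, 0))) + 9 ^ n * J (W' n) (D F (h n • (0, b)))) := by
    intro n
    set k : ℝ × ℝ := h n • (2 * a, 2 * b) with hk
    have huk : ((M * 3 ^ n : ℕ) : ℝ) • k = u := by
      rw [hk, smul_smul]
      have e : ((M * 3 ^ n : ℕ) : ℝ) * h n = M := by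
        unfold h; push_cast; rw [mul_assoc, ← mul_pow]; norm_num
      rw [e]
      ext
      · simp only [Prod.smul_fst, smul_eq_mul, ha]; field_simp
      · simp only [Prod.smul_snd, smul_eq_mul, hb]; field_simp
    have hpt : ∀ q, (ball p η).indicator (fun _ => ENNReal.ofReal c) q ≤
        ∑ l ∈ Finset.range (M * 3 ^ n), ∑ j ∈ Finset.range (M * 3 ^ n),
          ENNReal.ofReal (-D F k (q + ((j:ℝ) - l) • k)) := by
      intro q
      by_cases hq : q ∈ ball p η
      · rw [indicator_of_mem hq]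
        have h1 : c ≤ -D F u q := by
          have := hball hq
          simp only [mem_ofPred_eq] at this
          rw [hc]; linarith
        refine le_trans (ENNReal.ofReal_le_ofReal h1) ?_
        rw [← huk, D_sum, ← Finset.sum_neg_distrib]
        refine le_trans (ofReal_sum_le _ _) (Finset.sum_le_sum fun l _ => ?_)
        rw [← Finset.sum_neg_distrib]
        exact ofReal_sum_le _ _
      · rw [indicator_of_notMem hq]; exact bot_le
    have hmeas : ∀ s : ℝ × ℝ, Measurable fun q => ENNReal.ofReal (-D F k (q + s)) := by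
      intro s
      have : Continuous fun q => -D F k (q + s) := ((cont_D hF k).comp (by fun_prop)).neg
      exact ENNReal.measurable_ofReal.comp this.measurable
    have h1 : v ≤ ((M * 3 ^ n : ℕ) : ℝ≥0∞) * ((M * 3 ^ n : ℕ) : ℝ≥0∞) *
        ∫⁻ q, ENNReal.ofReal (-D F k q) := by
      calc v = ∫⁻ q, (ball p η).indicator (fun _ => ENNReal.ofReal c) q := by
            rw [lintegral_indicator measurableSet_ball, lintegral_const, hv]
            simp
        _ ≤ ∫⁻ q, ∑ l ∈ Finset.range (M * 3 ^ n), ∑ j ∈ Finset.range (M * 3 ^ n),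
            ENNReal.ofReal (-D F k (q + ((j:ℝ) - l) • k)) := lintegral_mono hpt
        _ = ∑ l ∈ Finset.range (M * 3 ^ n), ∑ j ∈ Finset.range (M * 3 ^ n),
            ∫⁻ q, ENNReal.ofReal (-D F k q) := by
            rw [lintegral_finsetSum]
            · refine Finset.sum_congr rfl fun l _ => ?_
              rw [lintegral_finsetSum]
              · refine Finset.sum_congr rfl fun j _ => ?_
                exact lintegral_add_right_eq_self (fun q => ENNReal.ofReal (-D F k q)) _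
              · intro j _; exact hmeas _
            · intro l _; exact Finset.measurable_sum _ fun j _ => hmeas _
        _ = _ := by simp [mul_assoc]
    refine le_trans h1 ?_
    have h2 := le_trans (e_int hF hl ha1 hb1 n) (mul_le_mul_right (hC n) 2)
    refine le_trans (mul_le_mul_right h2 _) (le_of_eq ?_)
    have e9 : ((3:ℝ≥0∞) ^ n * 3 ^ n) = 9 ^ n := by rw [← mul_pow]; norm_num
    push_cast
    rw [← mul_add, ← e9]
    ring
  have hsum : ∀ N : ℕ, (N:ℝ≥0∞) * v ≤ (M:ℝ≥0∞) * M * (2 * C) *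
      (J Box' (D F (a, 0)) + J Box' (D F (0, b))) := by
    intro N
    calc (N:ℝ≥0∞) * v = ∑ _n ∈ Finset.range N, v := by simp
      _ ≤ ∑ n ∈ Finset.range N, (M:ℝ≥0∞) * M * (2 * C) *
        (9 ^ n * J (W' n) (D F (h n • (a, 0))) + 9 ^ n * J (W' n) (D F (h n • (0, b)))) :=
          Finset.sum_le_sum fun n _ => hbound n
      _ = (M:ℝ≥0∞) * M * (2 * C) * (∑ n ∈ Finset.range N, 9 ^ n * J (W' n) (D F (h n • (a, 0))) +
          ∑ n ∈ Finset.range N, 9 ^ n * J (W' n) (D F (h n • (0, b)))) := by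
          rw [← Finset.sum_add_distrib, Finset.mul_sum]
      _ ≤ _ := by
          refine mul_le_mul_right (add_le_add ?_ ?_) _
          · apply level_sum hF (w := (a, 0)) ha1.le (by simp)
            intro t q
            have : t • ((a, 0) : ℝ × ℝ) = (t * a, 0) := by ext <;> simp
            rw [this]; exact axis_x hF hl _ _
          · apply level_sum hF (w := (0, b)) (by simp) hb1.le
            intro t q
            have : t • ((0, b) : ℝ × ℝ) = (0, t * b) := by ext <;> simp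
            rw [this]; exact axis_y hF hl _ _
  have hfin : (M:ℝ≥0∞) * M * (2 * C) * (J Box' (D F (a, 0)) + J Box' (D F (0, b))) ≠ ∞ := by
    apply ENNReal.mul_ne_top
    · apply ENNReal.mul_ne_top
      · exact ENNReal.mul_ne_top (ENNReal.natCast_ne_top _) (ENNReal.natCast_ne_top _)
      · exact ENNReal.mul_ne_top (by norm_num) (ENNReal.natCast_ne_top _)
    · exact ENNReal.add_ne_top.2 ⟨(J_fin (cont_D hF _)).ne, (J_fin (cont_D hF _)).ne⟩
  obtain ⟨N, hN⟩ := ENNReal.exists_nat_mul_gt hv0 hfin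
  exact absurd (hsum N) (not_le.2 hN)

theorem convex_main : ConvexOn ℝ univ F := by
  refine ⟨convex_univ, fun x _ y _ s t hs ht hst => ?_⟩
  have key := one_dim (g := fun r => F (x + r • (y - x))) (by fun_prop) (by
    intro r _
    refine ⟨1, one_pos, fun z _ _ => ?_⟩
    have := D_nonneg hF hl (z • (y - x)) (x + r • (y - x))
    unfold D at this
    have e1 : x + r • (y - x) + z • (y - x) = x + (r + z) • (y - x) := by module
    have e2 : x + r • (y - x) - z • (y - x) = x + (r - z) • (y - x) := by module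
    rw [e1, e2] at this
    linarith) (θ := t) ⟨ht, by linarith⟩
  have hs' : s = 1 - t := by linarith
  subst hs'
  have e1 : x + t • (y - x) = (1 - t) • x + t • y := by module
  have e2 : x + (0:ℝ) • (y - x) = x := by simp
  have e3 : x + (1:ℝ) • (y - x) = y := by simp
  simp only [e1, e2, e3] at key
  simpa using key

end
end Pool.Agent.Q278.CD
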