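import Pool.Agent.Q278.CD.Basic

open MeasureTheory Set Metric
open scoped ENNReal

namespace Pool.Agent.Q278.CD

lemma D_sum (F : ℝ × ℝ → ℝ) (k p : ℝ × ℝ) (M : ℕ) :
    D F ((M:ℝ) • k) p =
      ∑ l ∈ Finset.range M, ∑ j ∈ Finset.range M, D F k (p + ((j:ℝ) - l) • k) := by
  have inner : ∀ l : ℕ, ∑ j ∈ Finset.range M, D F k (p + ((j:ℝ) - l) • k) =
      (F (p - ((l+1:ℕ):ℝ) • k) - F (p + ((M:ℝ) - ((l+1:ℕ):ℝ)) • k)) -
        (F (p - (l:ℝ) • k) - F (p + ((M:ℝ) - l) • k)) := by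
    intro l
    have key := Finset.sum_range_sub
      (fun j : ℕ => F (p + ((j:ℝ) - l) • k) - F (p + ((j:ℝ) - l - 1) • k)) M
    have e0 : ∑ j ∈ Finset.range M, D F k (p + ((j:ℝ) - l) • k) = ∑ i ∈ Finset.range M,
      ((F (p + (((i+1:ℕ):ℝ) - l) • k) - F (p + (((i+1:ℕ):ℝ) - l - 1) • k)) -
        (F (p + ((i:ℝ) - l) • k) - F (p + ((i:ℝ) - l - 1) • k))) := by
      refine Finset.sum_congr rfl fun j _ => ?_
      unfold D
      have e1 : p + ((j:ℝ) - l) • k + k = p + (((j+1:ℕ):ℝ) - l) • k := by push_cast; module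
      have e2 : p + ((j:ℝ) - l) • k - k = p + ((j:ℝ) - l - 1) • k := by module
      have e3 : p + (((j+1:ℕ):ℝ) - l - 1) • k = p + ((j:ℝ) - l) • k := by push_cast; module
      rw [e1, e2, e3]; ring
    rw [e0, key]
    have e4 : p + ((M:ℝ) - l - 1) • k = p + ((M:ℝ) - ((l+1:ℕ):ℝ)) • k := by push_cast; module
    have e5 : p + (((0:ℕ):ℝ) - l) • k = p - (l:ℝ) • k := by push_cast; module
    have e6 : p + (((0:ℕ):ℝ) - l - 1) • k = p - ((l+1:ℕ):ℝ) • k := by push_cast; module
    rw [e4, e5, e6]; ring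
  simp_rw [inner]
  rw [Finset.sum_range_sub (fun l : ℕ => F (p - (l:ℝ) • k) - F (p + ((M:ℝ) - l) • k)) M]
  have e1 : p + ((M:ℝ) - M) • k = p := by simp
  have e2 : p - ((0:ℕ):ℝ) • k = p := by simp
  have e3 : p + ((M:ℝ) - ((0:ℕ):ℝ)) • k = p + (M:ℝ) • k := by simp
  rw [e1, e2, e3]
  unfold D
  ring

/-- integral of the positive part of `g` over `E` -/
noncomputable def J (E : Set (ℝ × ℝ)) (g : ℝ × ℝ → ℝ) : ℝ≥0∞ :=
  ∫⁻ p, E.indicator (fun p => ENNReal.ofReal (g p)) p

lemma ofReal_sum_le {ι : Type*} (s : Finset ι) (f : ι → ℝ) :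
    ENNReal.ofReal (∑ i ∈ s, f i) ≤ ∑ i ∈ s, ENNReal.ofReal (f i) := by
  classical
  induction s using Finset.induction_on with
  | empty => simp
  | insert a s ha ih =>
    rw [Finset.sum_insert ha, Finset.sum_insert ha]
    exact le_trans ENNReal.ofReal_add_le (add_le_add le_rfl ih)

lemma meas_ind {E : Set (ℝ × ℝ)} (hE : MeasurableSet E) {g : ℝ × ℝ → ℝ} (hg : Continuous g) (s : ℝ × ℝ) :
    Measurable fun p => E.indicator (fun p => ENNReal.ofReal (g p)) (p + s) := by
  have h1 : Measurable (E.indicator (fun p => ENNReal.ofReal (g p))) :=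
    (ENNReal.measurable_ofReal.comp hg.measurable).indicator hE
  exact h1.comp (measurable_add_const s)

lemma cont_D {F : ℝ × ℝ → ℝ} (hF : Continuous F) (w : ℝ × ℝ) : Continuous (D F w) := by
  unfold D; fun_prop

lemma absjl {M j l : ℕ} (hj : j ∈ Finset.range M) (hl : l ∈ Finset.range M) :
    |((j:ℝ) - l)| ≤ M := by
  rw [Finset.mem_range] at hj hl
  have h1 : (j:ℝ) < M := by exact_mod_cast hj
  have h2 : (l:ℝ) < M := by exact_mod_cast hl
  have h3 : (0:ℝ) ≤ j := Nat.cast_nonneg _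
  have h4 : (0:ℝ) ≤ l := Nat.cast_nonneg _
  rw [abs_le]; constructor <;> linarith

lemma J_shift (E : Set (ℝ × ℝ)) (g : ℝ × ℝ → ℝ) (s : ℝ × ℝ) :
    ∫⁻ p, E.indicator (fun p => ENNReal.ofReal (g p)) (p + s) = J E g :=
  lintegral_add_right_eq_self _ s

lemma refine_up {F : ℝ × ℝ → ℝ} (hF : Continuous F) {k : ℝ × ℝ} {M : ℕ} {E E' : Set (ℝ × ℝ)}
    (hE' : MeasurableSet E') (hsub : ∀ p ∈ E, ∀ t : ℝ, |t| ≤ M → p + t • k ∈ E') :
    J E (D F ((M:ℝ) • k)) ≤ (M:ℝ≥0∞) * M * J E' (D F k) := by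
  have hpt : ∀ p, E.indicator (fun p => ENNReal.ofReal (D F ((M:ℝ) • k) p)) p ≤
      ∑ l ∈ Finset.range M, ∑ j ∈ Finset.range M,
        E'.indicator (fun p => ENNReal.ofReal (D F k p)) (p + ((j:ℝ) - l) • k) := by
    intro p
    by_cases hp : p ∈ E
    · rw [indicator_of_mem hp, D_sum]
      refine le_trans (ofReal_sum_le _ _) (Finset.sum_le_sum fun l hl => ?_)
      refine le_trans (ofReal_sum_le _ _) (Finset.sum_le_sum fun j hj => ?_)
      rw [indicator_of_mem (hsub p hp _ (absjl hj hl))]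
    · rw [indicator_of_notMem hp]; exact bot_le
  calc J E (D F ((M:ℝ) • k)) ≤ ∫⁻ p, ∑ l ∈ Finset.range M, ∑ j ∈ Finset.range M,
        E'.indicator (fun p => ENNReal.ofReal (D F k p)) (p + ((j:ℝ) - l) • k) := lintegral_mono hpt
    _ = ∑ l ∈ Finset.range M, ∑ j ∈ Finset.range M, J E' (D F k) := by
        rw [lintegral_finsetSum]
        · refine Finset.sum_congr rfl fun l _ => ?_
          rw [lintegral_finsetSum]
          · exact Finset.sum_congr rfl fun j _ => J_shift _ _ _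
          · intro j _; exact meas_ind hE' (cont_D hF k) _
        · intro l _
          exact Finset.measurable_sum _ fun j _ => meas_ind hE' (cont_D hF k) _
    _ = (M:ℝ≥0∞) * M * J E' (D F k) := by
        simp [mul_assoc]

lemma refine_down {F : ℝ × ℝ → ℝ} (hF : Continuous F) {k : ℝ × ℝ} {M : ℕ} {E E' : Set (ℝ × ℝ)}
    (hE : MeasurableSet E) (hpos : ∀ p, 0 ≤ D F k p)
    (hsub : ∀ p ∈ E, ∀ t : ℝ, |t| ≤ M → p + t • k ∈ E') :
    (M:ℝ≥0∞) * M * J E (D F k) ≤ J E' (D F ((M:ℝ) • k)) := by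
  have hpt : ∀ p, ∑ l ∈ Finset.range M, ∑ j ∈ Finset.range M,
        E.indicator (fun p => ENNReal.ofReal (D F k p)) (p + ((j:ℝ) - l) • k) ≤
      E'.indicator (fun p => ENNReal.ofReal (D F ((M:ℝ) • k) p)) p := by
    intro p
    by_cases hp : p ∈ E'
    · rw [indicator_of_mem hp, D_sum, ENNReal.ofReal_sum_of_nonneg
        (fun l _ => Finset.sum_nonneg fun j _ => hpos _)]
      refine Finset.sum_le_sum fun l hl => ?_
      rw [ENNReal.ofReal_sum_of_nonneg (fun j _ => hpos _)]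
      exact Finset.sum_le_sum fun j hj => indicator_le_self _ _ _
    · rw [indicator_of_notMem hp]
      refine le_of_eq (Finset.sum_eq_zero fun l hl => Finset.sum_eq_zero fun j hj => ?_)
      apply indicator_of_notMem
      intro hmem
      apply hp
      have := hsub _ hmem (-((j:ℝ) - l)) (by rw [abs_neg]; exact absjl hj hl)
      have e : p + ((j:ℝ) - l) • k + (-((j:ℝ) - l)) • k = p := by module
      rwa [e] at this
  calc (M:ℝ≥0∞) * M * J E (D F k) = ∑ l ∈ Finset.range M, ∑ j ∈ Finset.range M, J E (D F k) := by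
        simp [mul_assoc]
    _ = ∫⁻ p, ∑ l ∈ Finset.range M, ∑ j ∈ Finset.range M,
        E.indicator (fun p => ENNReal.ofReal (D F k p)) (p + ((j:ℝ) - l) • k) := by
        rw [lintegral_finsetSum]
        · refine Finset.sum_congr rfl fun l _ => ?_
          rw [lintegral_finsetSum]
          · exact Finset.sum_congr rfl fun j _ => (J_shift _ _ _).symm
          · intro j _; exact meas_ind hE (cont_D hF k) _
        · intro l _
          exact Finset.measurable_sum _ fun j _ => meas_ind hE (cont_D hF k) _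
    _ ≤ J E' (D F ((M:ℝ) • k)) := lintegral_mono hpt

/-- ring around the squares of level `n` -/
def W (n : ℕ) (a b : ℝ) : Set (ℝ × ℝ) :=
  {p | (p.1 ∈ T n b ∧ p.2 ∈ T n b) ∧ ¬ (p.1 ∈ T n a ∧ p.2 ∈ T n a)}

lemma meas_W (n : ℕ) (a b : ℝ) : MeasurableSet (W n a b) := by
  have h1 : ∀ c, MeasurableSet {p : ℝ × ℝ | p.1 ∈ T n c ∧ p.2 ∈ T n c} := by
    intro c
    exact ((isOpen_T n c).preimage continuous_fst |>.inter
      ((isOpen_T n c).preimage continuous_snd)).measurableSet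
  exact (h1 b).inter (h1 a).compl

lemma W_shift {n : ℕ} {a b r : ℝ} {p s : ℝ × ℝ} (hp : p ∈ W n a b) (h1 : |s.1| ≤ r * h n)
    (h2 : |s.2| ≤ r * h n) : p + s ∈ W n (a - r) (b + r) := by
  refine ⟨⟨T_shift hp.1.1 h1, T_shift hp.1.2 h2⟩, fun hcon => hp.2 ?_⟩
  have e1 : (p + s).1 + (-s.1) = p.1 := by simp
  have e2 : (p + s).2 + (-s.2) = p.2 := by simp
  have h3 := T_shift hcon.1 (s := -s.1) (r := r) (by rwa [abs_neg])
  have h4 := T_shift hcon.2 (s := -s.2) (r := r) (by rwa [abs_neg])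
  rw [e1, sub_add_cancel] at h3
  rw [e2, sub_add_cancel] at h4
  exact ⟨h3, h4⟩

lemma T_level {n m : ℕ} (hnm : n < m) : T m (1/2) ⊆ T n (1/5) := by
  intro x hx
  rw [mem_T] at hx ⊢
  obtain ⟨z, hz, hxz⟩ := hx
  refine ⟨z, preCantorSet_antitone hnm.le hz, lt_of_lt_of_le hxz ?_⟩
  have h1 : h m ≤ h (n+1) := by
    unfold h
    exact pow_le_pow_of_le_one (by norm_num) (by norm_num) hnm
  rw [h_succ] at h1
  have := h_pos n
  linarith

lemma W_disj : Pairwise (Function.onFun Disjoint fun n => W n (1/5) (1/2)) := by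
  have key : ∀ n m, n < m → Disjoint (W n (1/5) (1/2)) (W m (1/5) (1/2)) := by
    intro n m hnm
    rw [Set.disjoint_left]
    intro p hp hq
    exact hp.2 ⟨T_level hnm hq.1.1, T_level hnm hq.1.2⟩
  intro n m hne
  rcases lt_or_gt_of_ne hne with hlt | hlt
  · exact key n m hlt
  · exact (key m n hlt).symm

def Box : Set (ℝ × ℝ) := Icc ((-2:ℝ), (-2:ℝ)) (3, 3)
def Box' : Set (ℝ × ℝ) := Icc ((-3:ℝ), (-3:ℝ)) (4, 4)

lemma T_sub (n : ℕ) : T n (1/2) ⊆ Icc (-2) 3 := by
  intro x hx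
  rw [mem_T] at hx
  obtain ⟨z, hz, hxz⟩ := hx
  have hz' := preCantorSet_subset_unitInterval hz
  have hh : h n ≤ 1 := by unfold h; exact pow_le_one₀ (by norm_num) (by norm_num)
  rw [abs_lt] at hxz
  constructor
  · linarith [hz'.1]
  · linarith [hz'.2]

lemma W_sub (n : ℕ) : W n (1/5) (1/2) ⊆ Box := by
  intro p hp
  have h1 := T_sub n hp.1.1
  have h2 := T_sub n hp.1.2
  exact ⟨⟨h1.1, h2.1⟩, ⟨h1.2, h2.2⟩⟩

lemma sum_W_le {F : ℝ × ℝ → ℝ} (k : ℝ × ℝ) (N : ℕ) :
    ∑ n ∈ Finset.range N, J (W n (1/5) (1/2)) (D F k) ≤ J Box (D F k) := by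
  unfold J
  simp_rw [lintegral_indicator (meas_W _ _ _)]
  have hB : MeasurableSet Box := measurableSet_Icc
  rw [lintegral_indicator hB]
  rw [← lintegral_biUnion_finset (s := Finset.range N) (t := fun n => W n (1/5) (1/2))]
  · apply lintegral_mono_set
    exact iUnion₂_subset fun n _ => W_sub n
  · intro n _ m _ hne
    exact W_disj hne
  · intro n _; exact meas_W _ _ _

lemma hN (n m : ℕ) (w : ℝ × ℝ) : h n • w = ((3 ^ m : ℕ) : ℝ) • (h (n + m) • w) := by
  rw [smul_smul]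
  congr 1
  unfold h
  rw [pow_add]
  push_cast
  have : (3:ℝ) ^ m * (1/3) ^ m = 1 := by rw [← mul_pow]; norm_num
  linear_combination (-(1/3:ℝ)^n) * this

lemma level_sum {F : ℝ × ℝ → ℝ} (hF : Continuous F) {w : ℝ × ℝ} (hw1 : |w.1| ≤ 1/100)
    (hw2 : |w.2| ≤ 1/100) (hpos : ∀ t : ℝ, ∀ p, 0 ≤ D F (t • w) p) (N : ℕ) :
    ∑ n ∈ Finset.range N, (9:ℝ≥0∞) ^ n * J (W n (1/5 + 1/100) (1/2 - 1/100)) (D F (h n • w)) ≤
      J Box' (D F w) := by
  have step : ∀ n ∈ Finset.range N,
      (9:ℝ≥0∞) ^ n * J (W n (1/5 + 1/100) (1/2 - 1/100)) (D F (h n • w)) ≤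
      (9:ℝ≥0∞) ^ N * J (W n (1/5) (1/2)) (D F (h N • w)) := by
    intro n hn
    rw [Finset.mem_range] at hn
    obtain ⟨m, rfl⟩ := Nat.exists_eq_add_of_le hn.le
    have h1 := refine_up hF (k := h (n+m) • w) (M := 3 ^ m)
      (E := W n (1/5 + 1/100) (1/2 - 1/100)) (E' := W n (1/5) (1/2)) (meas_W _ _ _) (by
      intro p hp t ht
      have hs : t • h (n + m) • w = (t * h (n+m)) • w := by rw [smul_smul]
      have hb : |t * h (n+m)| ≤ h n := by
        rw [abs_mul, abs_of_pos (h_pos _)]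
        have := hN n m (1, 1)
        have e : h n = ((3 ^ m : ℕ) : ℝ) * h (n + m) := by
          have := congrArg Prod.fst this
          simpa using this
        rw [e]
        exact mul_le_mul_of_nonneg_right ht (h_pos _).le
      have := W_shift (r := 1/100) (s := (t * h (n+m)) • w) hp (by
        simp only [Prod.smul_fst, smul_eq_mul]
        rw [abs_mul]
        have := h_pos n
        calc _ ≤ h n * (1/100) := mul_le_mul hb hw1 (abs_nonneg _) this.le
          _ = _ := by ring) (by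
        simp only [Prod.smul_snd, smul_eq_mul]
        rw [abs_mul]
        have := h_pos n
        calc _ ≤ h n * (1/100) := mul_le_mul hb hw2 (abs_nonneg _) this.le
          _ = _ := by ring)
      rw [hs]
      convert this using 2 <;> norm_num)
    rw [← hN] at h1
    calc (9:ℝ≥0∞) ^ n * J (W n (1/5 + 1/100) (1/2 - 1/100)) (D F (h n • w))
        ≤ (9:ℝ≥0∞) ^ n * (((3^m : ℕ):ℝ≥0∞) * ((3^m : ℕ):ℝ≥0∞) * J (W n (1/5) (1/2)) (D F (h (n+m) • w))) :=
          mul_le_mul_right h1 _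
      _ = _ := by
          push_cast
          rw [pow_add, ← mul_assoc, ← mul_pow]
          norm_num
  calc _ ≤ ∑ n ∈ Finset.range N, (9:ℝ≥0∞) ^ N * J (W n (1/5) (1/2)) (D F (h N • w)) :=
        Finset.sum_le_sum step
    _ = (9:ℝ≥0∞) ^ N * ∑ n ∈ Finset.range N, J (W n (1/5) (1/2)) (D F (h N • w)) := by
        rw [Finset.mul_sum]
    _ ≤ (9:ℝ≥0∞) ^ N * J Box (D F (h N • w)) := mul_le_mul_right (sum_W_le _ _) _
    _ ≤ J Box' (D F w) := by
        have h1 := refine_down hF (k := h N • w) (M := 3 ^ N) (E := Box) (E' := Box')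
          measurableSet_Icc (hpos _) (by
          intro p hp t ht
          have hb : |t * h N| ≤ 1 := by
            rw [abs_mul, abs_of_pos (h_pos _)]
            have e : ((3 ^ N : ℕ) : ℝ) * h N = 1 := by
              unfold h; push_cast; rw [← mul_pow]; norm_num
            rw [← e]
            exact mul_le_mul_of_nonneg_right ht (h_pos _).le
          have hs : t • h N • w = (t * h N) • w := by rw [smul_smul]
          rw [hs]
          have b1 : |(t * h N) * w.1| ≤ 1 * (1/100) := by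
            rw [abs_mul]; exact mul_le_mul hb hw1 (abs_nonneg _) (by norm_num)
          have b2 : |(t * h N) * w.2| ≤ 1 * (1/100) := by
            rw [abs_mul]; exact mul_le_mul hb hw2 (abs_nonneg _) (by norm_num)
          rw [abs_le] at b1 b2
          obtain ⟨⟨p1, p2⟩, ⟨p3, p4⟩⟩ := hp
          simp only at p1 p2 p3 p4
          refine ⟨⟨?_, ?_⟩, ⟨?_, ?_⟩⟩
          · simp only [Prod.fst_add, Prod.smul_fst, smul_eq_mul]; linarith [b1.1]
          · simp only [Prod.snd_add, Prod.smul_snd, smul_eq_mul]; linarith [b2.1]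
          · simp only [Prod.fst_add, Prod.smul_fst, smul_eq_mul]; linarith [b1.2]
          · simp only [Prod.snd_add, Prod.smul_snd, smul_eq_mul]; linarith [b2.2])
        have e : ((3 ^ N : ℕ) : ℝ) • (h N • w) = w := by
          rw [smul_smul]
          have : ((3 ^ N : ℕ) : ℝ) * h N = 1 := by
            unfold h; push_cast; rw [← mul_pow]; norm_num
          rw [this, one_smul]
        rw [e] at h1
        refine le_trans (le_of_eq ?_) h1
        push_cast
        rw [← mul_pow]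
        norm_num

lemma J_fin {g : ℝ × ℝ → ℝ} (hg : Continuous g) : J Box' g < ∞ := by
  unfold J
  have hB : MeasurableSet Box' := measurableSet_Icc
  rw [lintegral_indicator hB]
  have : IntegrableOn g Box' := hg.continuousOn.integrableOn_compact isCompact_Icc
  exact this.lintegral_lt_top

end Pool.Agent.Q278.CD
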